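import Mathlib
import Pool.Agent.H1.GapDefs
import Pool.Agent.H1.GapC

open Pool.Agent.H1.Gap

universe u

theorem Pool.Agent.Results.MP_ec11a7_an.Full.result : ∃ α : ℝ, 1 / 2 < α ∧
    ∀ (𝕜 : Type) [RCLike 𝕜] (E : Type u) [NormedAddCommGroup E] [NormedSpace 𝕜 E]
      (G₁ G₂ : Submodule 𝕜 E), opening (G₁ : Set E) G₂ < α → dim 𝕜 G₁ = dim 𝕜 G₂ :=
  ⟨14 / 25, by norm_num, main⟩
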